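import Mathlib
import Pool.Agent.R241.SSA

/-!
# The sets `ω_{N_T}(x)` of a weakly mixing system need not be omega limit sets

We show that there are a weakly mixing system `(X, T)` and a point `x` for which
`ω_{N_T}(x) ≠ ω_T(y)` for every `y`. The system is the product of the spacing shift with the spacings
`P = ⋃ [10 ^ k, 10 ^ k + k]` (the sequences of zeros and ones such that the differences of the
positions of the ones belong to `P`) and the full shift on two symbols, and `x = (0, w)` where `w` is
constant on each block `[5 * 10 ^ (k - 1), 5 * 10 ^ k)`, the constant being the parity of `k`. Then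
`ω_{N_T}(x)` consists of two different fixed points, and no omega limit set has this form.
-/

set_option autoImplicit false

open Set Pool.Agent.R241.SS

namespace Pool.Agent.Results.MP_8a65de_an.NotOmegaLimit

/-- There are a compact metric space `X` with more than one point and without isolated points, a
weakly mixing continuous surjection `T : X → X` and a point `x` such that no omega limit set
`ω_T(y)` is equal to `ω_{N_T}(x)`. -/
theorem result : ∃ (X : Type) (_ : MetricSpace X) (_ : CompactSpace X) (T : X → X),
    Nontrivial X ∧ (∀ x : X, ¬ IsOpen ({x} : Set X)) ∧ Continuous T ∧ Function.Surjective T ∧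
    WeaklyMixing T ∧ ∃ x : X, ∀ y : X, omegaN T x ≠ omega T y := by
  have key : ∀ t : TopologicalSpace (Sig PA × Sig (univ : Set ℕ)),
      t = instTopologicalSpaceProd →
      @CompactSpace _ t ∧ (∀ x, ¬ @IsOpen _ t {x}) ∧ @Continuous _ _ t t (T2 PA univ) ∧
      @WeaklyMixing _ t (T2 PA univ) ∧ ∀ y, @omegaN _ t (T2 PA univ) xA ≠
        @omega _ t (T2 PA univ) y := by
    rintro _ rfl
    refine ⟨inferInstance, ?_, ?_, ?_, fun y h => omega_ne y h.symm⟩
    · intro x hx
      obtain ⟨m, hm⟩ := exists_cyl_prod (hx.mem_nhds rfl)
      have h1 := hm (x.1, ⟨fun i => if i = m then !(x.2.1 m) else x.2.1 i, adm_univ _⟩)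
        (fun i _ => rfl) (fun i hi => by simp [hi.ne])
      have h2 := congrArg (fun y => y.2.1 m) (mem_singleton_iff.1 h1)
      simp at h2
    · exact (continuous_shift PA).prodMap (continuous_shift univ)
    · refine weaklyMixing_T2 fun m => ?_
      obtain ⟨n, hn, -, h⟩ := exists_glue thick_PA m 0
      exact ⟨n, hn, h, fun _ _ _ _ => adm_univ _⟩
  obtain ⟨M, hM⟩ : ∃ M : MetricSpace (Sig PA × Sig (univ : Set ℕ)),
      M.toPseudoMetricSpace.toUniformSpace.toTopologicalSpace = instTopologicalSpaceProd :=
    ⟨prodMetric PA univ, prodMetric_top PA univ⟩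
  obtain ⟨h1, h2, h3, h4, h5⟩ := key _ hM
  refine ⟨Sig PA × Sig (univ : Set ℕ), M, h1, T2 PA univ, ?_, h2, h3, ?_, h4, xA, h5⟩
  · refine ⟨pA false, pA true, fun h => ?_⟩
    have := congrArg (fun y => y.2.1 0) h
    simp [pA] at this
  · exact (shift_surjective PA).prodMap (shift_surjective univ)

end Pool.Agent.Results.MP_8a65de_an.NotOmegaLimit
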